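import Mathlib

set_option autoImplicit false

namespace Pool.Agent.H204Maz

open Cardinal

/-- abstract transfinite construction of length at most the continuum, finitely many new
elements at each step -/
theorem transfinite {X T : Type} (G : Set X → Prop) (Done : Set X → T → Prop)
    (hfin : ∀ S : Set X, (∀ F : Set X, F.Finite → F ⊆ S → G F) → G S)
    (hmono : ∀ S S' : Set X, S ⊆ S' → G S' → G S)
    (hG0 : G ∅)
    (hDone : ∀ S S' t, S ⊆ S' → Done S t → Done S' t)
    (hT : #T ≤ 𝔠)
    (step : ∀ S, G S → #S < 𝔠 → ∀ t, ∃ S', S ⊆ S' ∧ G S' ∧ (S' \ S).Finite ∧ Done S' t) :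
    ∃ S, G S ∧ ∀ t, Done S t := by
  classical
  obtain ⟨r, wo, hr⟩ := Cardinal.exists_ord_eq T
  -- one step
  let nxt : Set X → T → Set X := fun U t =>
    if h : G U ∧ #U < 𝔠 then (step U h.1 h.2 t).choose else U
  let F : T → Set X := wo.wf.fix (fun t ih => nxt (⋃ s, ⋃ (h : r s t), ih s h) t)
  let U : T → Set X := fun t => ⋃ s, ⋃ (_ : r s t), F s
  have hF : ∀ t, F t = nxt (U t) t := by
    intro t
    show wo.wf.fix _ t = _
    rw [WellFounded.fix_eq]
  have hUF : ∀ t, U t ⊆ F t := by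
    intro t
    rw [hF]
    show U t ⊆ (if h : G (U t) ∧ #(U t) < 𝔠 then (step (U t) h.1 h.2 t).choose else U t)
    split_ifs with h
    · exact (step (U t) h.1 h.2 t).choose_spec.1
    · exact subset_rfl
  have hFmono : ∀ s t, r s t → F s ⊆ F t := by
    intro s t hst
    refine Set.Subset.trans ?_ (hUF t)
    intro x hx
    exact Set.mem_iUnion.2 ⟨s, Set.mem_iUnion.2 ⟨hst, hx⟩⟩
  have htri : ∀ s t : T, ∃ u, (u = s ∨ u = t) ∧ F s ⊆ F u ∧ F t ⊆ F u := by
    intro s t
    rcases trichotomous_of r s t with h | h | h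
    · exact ⟨t, Or.inr rfl, hFmono s t h, subset_rfl⟩
    · subst h; exact ⟨s, Or.inl rfl, subset_rfl, subset_rfl⟩
    · exact ⟨s, Or.inl rfl, subset_rfl, hFmono t s h⟩
  -- finite subsets of unions
  have hunion : ∀ (I : Set T) (A : Set X), A.Finite → A ⊆ (⋃ s ∈ I, F s) →
      A = ∅ ∨ ∃ s ∈ I, A ⊆ F s := by
    intro I A hA
    induction A, hA using Set.Finite.induction_on with
    | empty => intro _; left; rfl
    | @insert a A ha hA ih =>
      intro hsub
      right
      have h1 : a ∈ ⋃ s ∈ I, F s := hsub (Set.mem_insert _ _)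
      simp only [Set.mem_iUnion] at h1
      obtain ⟨s, hs, has⟩ := h1
      rcases ih (fun x hx => hsub (Set.mem_insert_of_mem _ hx)) with h2 | ⟨s', hs', h2⟩
      · refine ⟨s, hs, ?_⟩
        rw [h2]
        intro x hx
        rcases hx with hx | hx
        · rw [hx]; exact has
        · exact hx.elim
      · obtain ⟨u, hu, hu1, hu2⟩ := htri s s'
        refine ⟨u, ?_, ?_⟩
        · rcases hu with rfl | rfl
          · exact hs
          · exact hs'
        · intro x hx
          rcases hx with hx | hx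
          · rw [hx]; exact hu1 has
          · exact hu2 (h2 hx)
  have hGunion : ∀ I : Set T, (∀ s ∈ I, G (F s)) → G (⋃ s ∈ I, F s) := by
    intro I hI
    apply hfin
    intro A hA hsub
    rcases hunion I A hA hsub with h | ⟨s, hs, h⟩
    · rw [h]; exact hG0
    · exact hmono _ _ h (hI s hs)
  have hUeq : ∀ t, U t = ⋃ s ∈ {s | r s t}, F s := fun t => rfl
  have hcardlt : ∀ t : T, #{ y // r y t } < 𝔠 := by
    intro t
    have := Cardinal.card_typein_lt t hr
    rw [Ordinal.card_typein] at this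
    exact lt_of_lt_of_le this hT
  -- main induction
  have main : ∀ t, G (F t) ∧ (F t \ U t).Finite ∧ Done (F t) t := by
    intro t
    induction t using wo.wf.induction with
    | _ t ih =>
      have h1 : G (U t) := by
        rw [hUeq]
        exact hGunion _ fun s hs => (ih s hs).1
      have h2 : U t ⊆ ⋃ s : { y // r y t }, (F s.1 \ U s.1) := by
        intro x hx
        obtain ⟨s, hs⟩ := Set.mem_iUnion.1 hx
        obtain ⟨hst, hxs⟩ := Set.mem_iUnion.1 hs
        have hne : ({s | r s t ∧ x ∈ F s} : Set T).Nonempty := ⟨s, hst, hxs⟩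
        have hmin := wo.wf.min_mem _ hne
        set s0 := wo.wf.min _ hne with hs0
        refine Set.mem_iUnion.2 ⟨⟨s0, hmin.1⟩, hmin.2, ?_⟩
        intro hx'
        obtain ⟨s1, hs1⟩ := Set.mem_iUnion.1 hx'
        obtain ⟨hs10, hxs1⟩ := Set.mem_iUnion.1 hs1
        have hmem : s1 ∈ ({s | r s t ∧ x ∈ F s} : Set T) := ⟨trans_of r hs10 hmin.1, hxs1⟩
        exact wo.wf.not_lt_min _ hmem hs10
      have h3 : #(U t) < 𝔠 := by
        refine lt_of_le_of_lt (Cardinal.mk_le_mk_of_subset h2) ?_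
        refine lt_of_le_of_lt (Cardinal.mk_iUnion_le_sum_mk) ?_
        refine lt_of_le_of_lt (Cardinal.sum_le_sum _ (fun _ => ℵ₀) ?_) ?_
        · intro s
          exact (ih s.1 s.2).2.1.lt_aleph0.le
        · rw [Cardinal.sum_const']
          exact Cardinal.mul_lt_of_lt Cardinal.aleph0_le_continuum (hcardlt t)
            Cardinal.aleph0_lt_continuum
      have h4 : F t = (step (U t) h1 h3 t).choose := by
        rw [hF]
        show (if h : G (U t) ∧ #(U t) < 𝔠 then (step (U t) h.1 h.2 t).choose else U t) = _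
        rw [dif_pos ⟨h1, h3⟩]
      have h5 := (step (U t) h1 h3 t).choose_spec
      rw [← h4] at h5
      exact ⟨h5.2.1, h5.2.2.1, h5.2.2.2⟩
  refine ⟨⋃ s ∈ (Set.univ : Set T), F s, hGunion _ fun s _ => (main s).1, fun t => ?_⟩
  refine hDone (F t) _ t ?_ (main t).2.2
  intro x hx
  exact Set.mem_iUnion.2 ⟨t, Set.mem_iUnion.2 ⟨trivial, hx⟩⟩

/-- cardinality of a rational span -/
theorem card_span_lt {s : Set (ℝ × ℝ)} (hs : #s < 𝔠) :
    #(Submodule.span ℚ s) < 𝔠 := by
  have h1 : (Submodule.span ℚ s : Submodule ℚ (ℝ × ℝ)) =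
      LinearMap.range (Finsupp.linearCombination ℚ (Subtype.val : s → ℝ × ℝ)) := by
    rw [Finsupp.range_linearCombination]; simp
  rw [h1]
  have h2 : #(LinearMap.range (Finsupp.linearCombination ℚ (Subtype.val : s → ℝ × ℝ)))
      ≤ #(s →₀ ℚ) := by
    exact Cardinal.mk_range_le (f := Finsupp.linearCombination ℚ (Subtype.val : s → ℝ × ℝ))
  refine lt_of_le_of_lt h2 ?_
  rcases s.eq_empty_or_nonempty with h | h
  · subst h
    refine lt_of_le_of_lt ?_ Cardinal.aleph0_lt_continuum
    simp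
  · have := h.to_subtype
    rw [Cardinal.mk_finsupp_of_infinite']
    exact max_lt hs (by simpa using Cardinal.aleph0_lt_continuum)

/-- avoiding fewer than continuum many countable sets -/
theorem avoid {ι : Type} (B : ι → Set ℝ) (hι : #ι < 𝔠) (hB : ∀ i, (B i).Countable) :
    ∃ t : ℝ, ∀ i, t ∉ B i := by
  by_contra hcon
  push Not at hcon
  have h1 : (Set.univ : Set ℝ) ⊆ ⋃ i, B i := by
    intro t _
    obtain ⟨i, hi⟩ := hcon t
    exact Set.mem_iUnion.2 ⟨i, hi⟩
  have h2 : 𝔠 ≤ #(⋃ i, B i) := by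
    rw [← Cardinal.mk_real, ← Cardinal.mk_univ]
    exact Cardinal.mk_le_mk_of_subset h1
  have h3 : #(⋃ i, B i) < 𝔠 := by
    refine lt_of_le_of_lt (Cardinal.mk_iUnion_le_sum_mk) ?_
    refine lt_of_le_of_lt (Cardinal.sum_le_sum _ (fun _ => ℵ₀) ?_) ?_
    · intro i
      exact (hB i).le_aleph0
    · rw [Cardinal.sum_const']
      exact Cardinal.mul_lt_of_lt Cardinal.aleph0_le_continuum hι Cardinal.aleph0_lt_continuum
  exact absurd h3 (not_lt.2 h2)

end Pool.Agent.H204Maz
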