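import Mathlib
import Pool.Agent.H204Maz.Trans

set_option autoImplicit false

namespace Pool.Agent.H204Maz

open Cardinal

abbrev P := ℝ × ℝ

/-- first coordinate of the rotated point -/
noncomputable def L (θ : ℝ) (p : P) : ℝ := Real.cos θ * p.1 - Real.sin θ * p.2

/-- cross product -/
def cr (p q : P) : ℝ := p.1 * q.2 - p.2 * q.1

def pts (S : Set (P × (ℝ → Bool))) : Set P := Prod.fst '' S

def cls (S : Set (P × (ℝ → Bool))) (θ : ℝ) (b : Bool) : Set P := {p | ∃ κ, (p, κ) ∈ S ∧ κ θ = b}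

structure Good (S : Set (P × (ℝ → Bool))) : Prop where
  fn : ∀ a ∈ S, ∀ b ∈ S, a.1 = b.1 → a = b
  col : ∀ a ∈ S, ∀ b ∈ S, ∀ c ∈ S, a.1 ≠ b.1 → a.1 ≠ c.1 → b.1 ≠ c.1 →
    cr (b.1 - a.1) (c.1 - a.1) ≠ 0
  opp : ∀ a ∈ S, ∀ b ∈ S, a.1 ≠ b.1 → ∀ θ, L θ a.1 = L θ b.1 → a.2 θ ≠ b.2 θ
  ind : ∀ θ b, LinearIndepOn ℚ id (cls S θ b)

theorem cls_mono {S S' : Set (P × (ℝ → Bool))} (h : S ⊆ S') (θ : ℝ) (b : Bool) :
    cls S θ b ⊆ cls S' θ b := by
  rintro p ⟨κ, h1, h2⟩
  exact ⟨κ, h h1, h2⟩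

theorem cls_sub_pts (S : Set (P × (ℝ → Bool))) (θ : ℝ) (b : Bool) : cls S θ b ⊆ pts S := by
  rintro p ⟨κ, h1, _⟩
  exact ⟨(p, κ), h1, rfl⟩

theorem good_mono {S S' : Set (P × (ℝ → Bool))} (h : S ⊆ S') (hS : Good S') : Good S where
  fn a ha b hb := hS.fn a (h ha) b (h hb)
  col a ha b hb c hc := hS.col a (h ha) b (h hb) c (h hc)
  opp a ha b hb := hS.opp a (h ha) b (h hb)
  ind θ b := (hS.ind θ b).mono (cls_mono h θ b)

theorem good_fin (S : Set (P × (ℝ → Bool))) (h : ∀ F : Set (P × (ℝ → Bool)), F.Finite → F ⊆ S → Good F) :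
    Good S where
  fn a ha b hb := (h {a, b} (by simp) (by
    rintro x (rfl | rfl) <;> assumption)).fn a (by simp) b (by simp)
  col a ha b hb c hc := (h {a, b, c} (by simp) (by
    rintro x (rfl | rfl | rfl) <;> assumption)).col a (by simp) b (by simp) c (by simp)
  opp a ha b hb := (h {a, b} (by simp) (by
    rintro x (rfl | rfl) <;> assumption)).opp a (by simp) b (by simp)
  ind θ b := by
    apply linearIndepOn_of_finite
    intro t ht hfin
    have h1 : ∀ p : t, ∃ κ, (p.1, κ) ∈ S ∧ κ θ = b := fun p => ht p.2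
    choose κ hκ1 hκ2 using h1
    have := hfin.to_subtype
    have h2 := h (Set.range fun p : t => (p.1, κ p)) (Set.finite_range _) (by
      rintro x ⟨p, rfl⟩
      exact hκ1 p)
    refine (h2.ind θ b).mono ?_
    intro p hp
    exact ⟨κ ⟨p, hp⟩, ⟨⟨p, hp⟩, rfl⟩, hκ2 _⟩

theorem good_empty : Good ∅ where
  fn a ha := ha.elim
  col a ha := ha.elim
  opp a ha := ha.elim
  ind θ b := by
    have : cls ∅ θ b = ∅ := by
      ext p
      simp [cls]
    rw [this]
    exact linearIndepOn_empty _ _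

theorem cls_insert_eq {S : Set (P × (ℝ → Bool))} {p : P} {κ : ℝ → Bool} {θ : ℝ} {b : Bool}
    (h : κ θ = b) : cls (insert (p, κ) S) θ b = insert p (cls S θ b) := by
  ext q
  constructor
  · rintro ⟨κ', h1, h2⟩
    rcases h1 with h1 | h1
    · left
      exact congrArg Prod.fst h1
    · right
      exact ⟨κ', h1, h2⟩
  · rintro (rfl | ⟨κ', h1, h2⟩)
    · exact ⟨κ, Or.inl rfl, h⟩
    · exact ⟨κ', Or.inr h1, h2⟩

theorem cls_insert_ne {S : Set (P × (ℝ → Bool))} {p : P} {κ : ℝ → Bool} {θ : ℝ} {b : Bool}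
    (h : κ θ ≠ b) : cls (insert (p, κ) S) θ b = cls S θ b := by
  ext q
  constructor
  · rintro ⟨κ', h1, h2⟩
    rcases h1 with h1 | h1
    · exfalso
      have := congrArg Prod.snd h1
      simp only at this
      rw [this] at h2
      exact h h2
    · exact ⟨κ', h1, h2⟩
  · rintro ⟨κ', h1, h2⟩
    exact ⟨κ', Or.inr h1, h2⟩

theorem pts_insert {S : Set (P × (ℝ → Bool))} {p : P} {κ : ℝ → Bool} :
    pts (insert (p, κ) S) = insert p (pts S) := by
  unfold pts
  rw [Set.image_insert_eq]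

theorem good_insert {S : Set (P × (ℝ → Bool))} (hS : Good S) {p : P} {κ : ℝ → Bool}
    (hp : p ∉ pts S)
    (hcol : ∀ q ∈ pts S, ∀ q' ∈ pts S, q ≠ q' → cr (q' - q) (p - q) ≠ 0)
    (hopp : ∀ a ∈ S, ∀ θ, L θ a.1 = L θ p → κ θ ≠ a.2 θ)
    (hind : ∀ θ, p ∉ Submodule.span ℚ (cls S θ (κ θ))) : Good (insert (p, κ) S) where
  fn := by
    rintro a (rfl | ha) b (rfl | hb) hab
    · rfl
    · exact (hp ⟨b, hb, hab.symm⟩).elim
    · exact (hp ⟨a, ha, hab⟩).elim
    · exact hS.fn a ha b hb hab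
  col := by
    rintro a (rfl | ha) b (rfl | hb) c (rfl | hc) h1 h2 h3
    · exact (h1 rfl).elim
    · exact (h1 rfl).elim
    · exact (h2 rfl).elim
    · have := hcol b.1 ⟨b, hb, rfl⟩ c.1 ⟨c, hc, rfl⟩ h3
      intro h4
      apply this
      rw [← h4]
      simp only [cr, Prod.fst_sub, Prod.snd_sub]
      ring
    · exact (h3 rfl).elim
    · have := hcol a.1 ⟨a, ha, rfl⟩ c.1 ⟨c, hc, rfl⟩ h2
      intro h4
      apply this
      rw [← neg_eq_zero, ← h4]
      simp only [cr, Prod.fst_sub, Prod.snd_sub]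
      ring
    · exact hcol a.1 ⟨a, ha, rfl⟩ b.1 ⟨b, hb, rfl⟩ h1
    · exact hS.col a ha b hb c hc h1 h2 h3
  opp := by
    rintro a (rfl | ha) b (rfl | hb) h1 θ h2
    · exact (h1 rfl).elim
    · exact hopp b hb θ h2.symm
    · exact (hopp a ha θ h2).symm
    · exact hS.opp a ha b hb h1 θ h2
  ind := by
    intro θ b
    by_cases h : κ θ = b
    · rw [cls_insert_eq h]
      refine (hS.ind θ b).id_insert ?_
      have := hind θ
      rwa [h] at this
    · rw [cls_insert_ne h]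
      exact hS.ind θ b

theorem cr_eq_zero_of_L {θ : ℝ} {w w' : P} (h : L θ w = 0) (h' : L θ w' = 0) : cr w w' = 0 := by
  unfold L at h h'
  unfold cr
  have h1 := Real.sin_sq_add_cos_sq θ
  linear_combination (-(w.1 * w'.2 - w.2 * w'.1)) * h1 +
    (Real.cos θ * w'.2 + Real.sin θ * w'.1) * h + (-(Real.cos θ * w.2) - Real.sin θ * w.1) * h'

theorem L_sub (θ : ℝ) (p q : P) : L θ (p - q) = L θ p - L θ q := by
  unfold L
  simp only [Prod.fst_sub, Prod.snd_sub]
  ring

theorem cr_zero_of_L3 {θ : ℝ} {p q q' : P} (h : L θ q = L θ p) (h' : L θ q' = L θ p) :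
    cr (q' - q) (p - q) = 0 := by
  apply cr_eq_zero_of_L (θ := θ)
  · rw [L_sub]; linarith
  · rw [L_sub]; linarith

open Classical in
/-- adding one generic point -/
theorem insert_one {S : Set (P × (ℝ → Bool))} (hS : Good S) {p : P}
    (hspan : p ∉ Submodule.span ℚ (pts S))
    (hcol : ∀ q ∈ pts S, ∀ q' ∈ pts S, q ≠ q' → cr (q' - q) (p - q) ≠ 0) (b : Bool) :
    ∃ κ, Good (insert (p, κ) S) ∧ ∀ θ, (∀ q ∈ pts S, L θ q ≠ L θ p) → κ θ = b := by
  refine ⟨fun θ => if h : ∃ a ∈ S, L θ a.1 = L θ p then !(h.choose.2 θ) else b, ?_, ?_⟩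
  · apply good_insert hS
    · intro h; exact hspan (Submodule.subset_span h)
    · exact hcol
    · intro a ha θ hL
      have hex : ∃ a ∈ S, L θ a.1 = L θ p := ⟨a, ha, hL⟩
      rw [dif_pos hex]
      have h1 := hex.choose_spec
      have h2 : hex.choose = a := by
        apply hS.fn _ h1.1 _ ha
        by_contra hne
        exact hcol _ ⟨_, h1.1, rfl⟩ _ ⟨a, ha, rfl⟩ hne (cr_zero_of_L3 h1.2 hL)
      rw [h2]
      cases a.2 θ <;> simp
    · intro θ h
      exact hspan (Submodule.span_mono (cls_sub_pts S θ _) h)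
  · intro θ h
    beta_reduce
    rw [dif_neg]
    rintro ⟨a, ha, hL⟩
    exact h a.1 ⟨a, ha, rfl⟩ hL

/-- generic predicates on the line -/
def Gen (Q : ℝ → Prop) : Prop := #{t | ¬ Q t} < 𝔠

theorem Gen.and {Q Q' : ℝ → Prop} (h : Gen Q) (h' : Gen Q') : Gen fun t => Q t ∧ Q' t := by
  unfold Gen at *
  have h1 : {t | ¬ (Q t ∧ Q' t)} ⊆ {t | ¬ Q t} ∪ {t | ¬ Q' t} := by
    intro t ht
    simp only [Set.mem_ofPred_eq, Set.mem_union] at *
    tauto
  refine lt_of_le_of_lt (Cardinal.mk_le_mk_of_subset h1) ?_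
  refine lt_of_le_of_lt (Cardinal.mk_union_le _ _) ?_
  exact Cardinal.add_lt_of_lt Cardinal.aleph0_le_continuum h h'

theorem Gen.exists {Q : ℝ → Prop} (h : Gen Q) : ∃ t, Q t := by
  by_contra hcon
  push Not at hcon
  unfold Gen at h
  have h1 : {t | ¬ Q t} = Set.univ := by
    ext t; simp [hcon t]
  rw [h1, Cardinal.mk_univ, Cardinal.mk_real] at h
  exact lt_irrefl _ h

theorem Gen.all {ι : Type} {Q : ι → ℝ → Prop} (hι : #ι < 𝔠) (h : ∀ i, {t | ¬ Q i t}.Countable) :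
    Gen fun t => ∀ i, Q i t := by
  unfold Gen
  have h1 : {t | ¬ ∀ i, Q i t} ⊆ ⋃ i, {t | ¬ Q i t} := by
    intro t ht
    simp only [Set.mem_ofPred_eq, not_forall, Set.mem_iUnion] at *
    exact ht
  refine lt_of_le_of_lt (Cardinal.mk_le_mk_of_subset h1) ?_
  refine lt_of_le_of_lt (Cardinal.mk_iUnion_le_sum_mk) ?_
  refine lt_of_le_of_lt (Cardinal.sum_le_sum _ (fun _ => ℵ₀) ?_) ?_
  · intro i
    exact (h i).le_aleph0
  · rw [Cardinal.sum_const']
    exact Cardinal.mul_lt_of_lt Cardinal.aleph0_le_continuum hι Cardinal.aleph0_lt_continuum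

/-- one predicate for each member of a small set -/
theorem Gen.all1 {M : Set P} (hM : #M < 𝔠) {Q : P → ℝ → Prop}
    (h : ∀ q ∈ M, {t | ¬ Q q t}.Countable) : Gen fun t => ∀ q ∈ M, Q q t := by
  have := Gen.all (ι := M) (Q := fun q t => Q q.1 t) hM (fun q => h q.1 q.2)
  unfold Gen at *
  convert this using 4
  simp

theorem Gen.all2 {M : Set P} (hM : #M < 𝔠) {Q : P → P → ℝ → Prop}
    (h : ∀ q ∈ M, ∀ q' ∈ M, {t | ¬ Q q q' t}.Countable) :
    Gen fun t => ∀ q ∈ M, ∀ q' ∈ M, Q q q' t := by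
  have := Gen.all (ι := M × M) (Q := fun q t => Q q.1.1 q.2.1 t) (by
    rw [Cardinal.mk_prod, Cardinal.lift_id]
    exact Cardinal.mul_lt_of_lt Cardinal.aleph0_le_continuum hM hM)
    (fun q => h q.1.1 q.1.2 q.2.1 q.2.2)
  unfold Gen at *
  convert this using 4
  simp

theorem Gen.notMem {W : Set P} (hW : #W < 𝔠) {x : ℝ → P} (hx : Function.Injective x) :
    Gen fun t => x t ∉ W := by
  unfold Gen
  have h1 : #{t | ¬ x t ∉ W} ≤ #W := by
    refine Cardinal.mk_le_of_injective (f := fun t => (⟨x t.1, by simpa using t.2⟩ : W)) ?_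
    intro t t' h
    simp only [Subtype.mk.injEq] at h
    exact Subtype.ext (hx h)
  exact lt_of_le_of_lt h1 hW

theorem quad_countable {a b c : ℝ} (h : ¬ (a = 0 ∧ b = 0 ∧ c = 0)) :
    {t : ℝ | ¬ (a + b * t + c * t ^ 2 ≠ 0)}.Countable := by
  have hp : (Polynomial.C a + Polynomial.C b * Polynomial.X + Polynomial.C c * Polynomial.X ^ 2 :
      Polynomial ℝ) ≠ 0 := by
    intro h0
    apply h
    have e0 := congrArg (fun p => Polynomial.coeff p 0) h0
    have e1 := congrArg (fun p => Polynomial.coeff p 1) h0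
    have e2 := congrArg (fun p => Polynomial.coeff p 2) h0
    simp [Polynomial.coeff_X, Polynomial.coeff_C] at e0 e1 e2
    exact ⟨e0, e1, e2⟩
  refine ((Polynomial.finite_setOfPred_isRoot hp).subset ?_).countable
  intro t ht
  simp only [ne_eq, not_not, Set.mem_ofPred_eq, Polynomial.IsRoot.def] at *
  simpa using ht

theorem quad_countable' {a b c : ℝ} {f : ℝ → ℝ} (hf : ∀ t, f t = a + b * t + c * t ^ 2)
    (h : ¬ (a = 0 ∧ b = 0 ∧ c = 0)) : {t : ℝ | ¬ (f t ≠ 0)}.Countable := by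
  refine (quad_countable h).mono ?_
  intro t ht
  simp only [ne_eq, not_not, Set.mem_ofPred_eq] at *
  rw [← hf, ht]

theorem imp_countable {p : Prop} {f : ℝ → Prop} (h : p → {t : ℝ | ¬ f t}.Countable) :
    {t : ℝ | ¬ (p → f t)}.Countable := by
  by_cases hp : p
  · refine (h hp).mono ?_
    intro t ht
    simp only [Set.mem_ofPred_eq] at *
    exact fun h' => ht fun _ => h'
  · have : {t : ℝ | ¬ (p → f t)} = ∅ := by
      ext t; simp [hp]
    rw [this]; exact Set.countable_empty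

/-- the parabola -/
noncomputable def par (t : ℝ) : P := (t, t ^ 2)

theorem par_inj : Function.Injective par := by
  intro t t' h
  exact congrArg Prod.fst h

theorem small_insert {M : Set P} (hM : #M < 𝔠) (p : P) : #(insert p M : Set P) < 𝔠 := by
  refine lt_of_le_of_lt (Cardinal.mk_insert_le) ?_
  exact Cardinal.add_lt_of_lt Cardinal.aleph0_le_continuum hM
    (lt_trans Cardinal.one_lt_aleph0 Cardinal.aleph0_lt_continuum)

theorem small_pts {S : Set (P × (ℝ → Bool))} (hS : #S < 𝔠) : #(pts S) < 𝔠 :=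
  lt_of_le_of_lt Cardinal.mk_image_le hS


/-- tasks: every line, and every (direction, vector, class) -/
abbrev T := (ℝ × ℝ × ℝ) ⊕ (ℝ × P × Bool)

def Done (S : Set (P × (ℝ → Bool))) : T → Prop
  | Sum.inl (a, b, c) => ¬ (a = 0 ∧ b = 0) → ∃ p ∈ pts S, ∃ q ∈ pts S, p ≠ q ∧
      a * p.1 + b * p.2 = c ∧ a * q.1 + b * q.2 = c
  | Sum.inr (θ, v, b) => v ∈ Submodule.span ℚ (cls S θ b)

theorem pts_mono {S S' : Set (P × (ℝ → Bool))} (h : S ⊆ S') : pts S ⊆ pts S' :=
  Set.image_mono h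

theorem Done_mono (S S' : Set (P × (ℝ → Bool))) (t : T) (h : S ⊆ S') (hd : Done S t) :
    Done S' t := by
  rcases t with ⟨a, b, c⟩ | ⟨θ, v, b⟩
  · intro h0
    obtain ⟨p, hp, q, hq, h1⟩ := hd h0
    exact ⟨p, pts_mono h hp, q, pts_mono h hq, h1⟩
  · exact Submodule.span_mono (cls_mono h θ b) hd

theorem card_T : #T ≤ 𝔠 := by
  simp only [T, P, Cardinal.mk_sum, Cardinal.mk_prod, Cardinal.mk_real, Cardinal.lift_id,
    Cardinal.mk_bool, Cardinal.continuum_mul_self, Cardinal.lift_continuum]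
  have h2 : (2 : Cardinal) ≤ 𝔠 := (Cardinal.nat_lt_continuum 2).le
  have h3 : (𝔠 : Cardinal) * 2 ≤ 𝔠 := by
    calc (𝔠 : Cardinal) * 2 ≤ 𝔠 * 𝔠 := mul_le_mul' le_rfl h2
      _ = 𝔠 := Cardinal.continuum_mul_self
  calc (𝔠 : Cardinal) + 𝔠 * (𝔠 * 2) ≤ 𝔠 + 𝔠 * 𝔠 := add_le_add le_rfl (mul_le_mul' le_rfl h3)
    _ = 𝔠 := by rw [Cardinal.continuum_mul_self, Cardinal.continuum_add_self]

/-- add a point to a line -/
theorem line_one {S : Set (P × (ℝ → Bool))} (hS : Good S) (hc : #S < 𝔠) {a b c : ℝ}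
    (hab : ¬ (a = 0 ∧ b = 0))
    (hno : ∀ p ∈ pts S, ∀ q ∈ pts S, p ≠ q → a * p.1 + b * p.2 = c → a * q.1 + b * q.2 ≠ c) :
    ∃ p κ, Good (insert (p, κ) S) ∧ p ∉ pts S ∧ a * p.1 + b * p.2 = c := by
  have hs : 0 < a ^ 2 + b ^ 2 := by
    by_contra h
    push Not at h
    apply hab
    constructor <;> nlinarith [sq_nonneg a, sq_nonneg b]
  let x : ℝ → P := fun t => (a * c / (a ^ 2 + b ^ 2) - b * t, b * c / (a ^ 2 + b ^ 2) + a * t)
  have hx : Function.Injective x := by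
    intro t t' h
    have h1 := congrArg Prod.fst h
    have h2 := congrArg Prod.snd h
    simp only [x] at h1 h2
    have h3 : b * (t - t') = 0 := by linarith
    have h4 : a * (t - t') = 0 := by linarith
    have h5 : (a ^ 2 + b ^ 2) * (t - t') = 0 := by
      linear_combination a * h4 + b * h3
    rcases mul_eq_zero.1 h5 with h6 | h6
    · exact absurd h6 hs.ne'
    · linarith
  have hxl : ∀ t, a * (x t).1 + b * (x t).2 = c := by
    intro t
    simp only [x]
    field_simp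
    ring
  have g1 : Gen fun t => x t ∉ (Submodule.span ℚ (pts S) : Set P) :=
    Gen.notMem (card_span_lt (small_pts hc)) hx
  have g2 : Gen fun t => ∀ q ∈ pts S, ∀ q' ∈ pts S, (q ≠ q' → cr (q' - q) (x t - q) ≠ 0) := by
    apply Gen.all2 (small_pts hc) (Q := fun q q' t => (q ≠ q' → cr (q' - q) (x t - q) ≠ 0))
    intro q hq q' hq'
    apply imp_countable
    intro hne
    · -- the quadratic (linear) polynomial
      have hcoef : ∀ t, cr (q' - q) (x t - q) =
          ((q'.1 - q.1) * (b * c / (a ^ 2 + b ^ 2) - q.2) -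
            (q'.2 - q.2) * (a * c / (a ^ 2 + b ^ 2) - q.1)) +
          ((q'.1 - q.1) * a + (q'.2 - q.2) * b) * t + 0 * t ^ 2 := by
        intro t
        simp only [cr, x, Prod.fst_sub, Prod.snd_sub]
        ring
      refine quad_countable' hcoef ?_
      · rintro ⟨e0, e1, -⟩
        -- both on the line
        have hval : a * (a * c / (a ^ 2 + b ^ 2)) + b * (b * c / (a ^ 2 + b ^ 2)) = c := by
          field_simp
        set u := a * c / (a ^ 2 + b ^ 2) with hu
        set v := b * c / (a ^ 2 + b ^ 2) with hv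
        have k1 : (q'.1 - q.1) * (a * (u - q.1) + b * (v - q.2)) = 0 := by
          linear_combination b * e0 + (u - q.1) * e1
        have k2 : (q'.2 - q.2) * (a * (u - q.1) + b * (v - q.2)) = 0 := by
          linear_combination (-a) * e0 + (v - q.2) * e1
        have k3 : a * (u - q.1) + b * (v - q.2) = 0 := by
          by_contra hne0
          apply hne
          have k4 := (mul_eq_zero.1 k1).resolve_right hne0
          have k5 := (mul_eq_zero.1 k2).resolve_right hne0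
          exact Prod.ext (by linarith) (by linarith)
        have k6 : a * q.1 + b * q.2 = c := by linarith
        have k7 : a * q'.1 + b * q'.2 = c := by linarith
        exact hno q hq q' hq' hne k6 k7
  obtain ⟨t, h1, h2⟩ := (g1.and g2).exists
  obtain ⟨κ, h3, _⟩ := insert_one hS (p := x t) h1 h2 true
  exact ⟨x t, κ, h3, fun h => h1 (Submodule.subset_span h), hxl t⟩

theorem small_insert' {S : Set (P × (ℝ → Bool))} (hS : #S < 𝔠) (p : P × (ℝ → Bool)) :
    #(insert p S : Set (P × (ℝ → Bool))) < 𝔠 := by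
  refine lt_of_le_of_lt (Cardinal.mk_insert_le) ?_
  exact Cardinal.add_lt_of_lt Cardinal.aleph0_le_continuum hS
    (lt_trans Cardinal.one_lt_aleph0 Cardinal.aleph0_lt_continuum)

theorem line_step {S : Set (P × (ℝ → Bool))} (hS : Good S) (hc : #S < 𝔠) (a b c : ℝ) :
    ∃ S', S ⊆ S' ∧ Good S' ∧ (S' \ S).Finite ∧ Done S' (Sum.inl (a, b, c)) := by
  by_cases hD : Done S (Sum.inl (a, b, c))
  · exact ⟨S, subset_rfl, hS, by simp, hD⟩
  have hab : ¬ (a = 0 ∧ b = 0) := by
    intro h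
    exact hD (fun h' => (h' h).elim)
  have hno : ∀ S' : Set (P × (ℝ → Bool)), ¬ Done S' (Sum.inl (a, b, c)) →
      ∀ p ∈ pts S', ∀ q ∈ pts S', p ≠ q → a * p.1 + b * p.2 = c → a * q.1 + b * q.2 ≠ c := by
    intro S' hD' p hp q hq hne h1 h2
    exact hD' (fun _ => ⟨p, hp, q, hq, hne, h1, h2⟩)
  obtain ⟨p, κ, h1, h2, h3⟩ := line_one hS hc hab (hno S hD)
  by_cases hD1 : Done (insert (p, κ) S) (Sum.inl (a, b, c))
  · refine ⟨insert (p, κ) S, Set.subset_insert _ _, h1, ?_, hD1⟩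
    refine (Set.finite_singleton (p, κ)).subset ?_
    rintro x ⟨hx, hx'⟩
    exact hx.resolve_right hx'
  · obtain ⟨p', κ', h1', h2', h3'⟩ := line_one h1 (small_insert' hc _) hab (hno _ hD1)
    refine ⟨insert (p', κ') (insert (p, κ) S),
      (Set.subset_insert _ _).trans (Set.subset_insert _ _), h1', ?_, ?_⟩
    · refine (Set.toFinite {(p, κ), (p', κ')}).subset ?_
      rintro x ⟨hx | hx | hx, hx'⟩
      · right; exact hx
      · left; exact hx
      · exact (hx' hx).elim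
    · intro _
      refine ⟨p, ⟨(p, κ), by simp, rfl⟩, p', ⟨(p', κ'), by simp, rfl⟩, ?_, h3, h3'⟩
      rintro rfl
      exact h2' ⟨(p, κ), by simp, rfl⟩

end Pool.Agent.H204Maz
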