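import Mathlib
import Pool.Agent.H204Maz.Main

set_option autoImplicit false

namespace Pool.Agent.H204Maz

open Cardinal

theorem gen_cr {M : Set P} (hM : #M < 𝔠) :
    Gen fun t => ∀ q ∈ M, ∀ q' ∈ M, (q ≠ q' → cr (q' - q) (par t - q) ≠ 0) := by
  apply Gen.all2 hM (Q := fun q q' t => (q ≠ q' → cr (q' - q) (par t - q) ≠ 0))
  intro q _ q' _
  apply imp_countable
  intro hne
  refine quad_countable' (a := -((q'.1 - q.1) * q.2) + (q'.2 - q.2) * q.1)
    (b := -(q'.2 - q.2)) (c := q'.1 - q.1) ?_ ?_
  · intro t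
    simp only [cr, par, Prod.fst_sub, Prod.snd_sub]
    ring
  · rintro ⟨-, h1, h2⟩
    exact hne (Prod.ext (by linarith) (by linarith))

theorem gen_cr' {M : Set P} (hM : #M < 𝔠) (v : P) :
    Gen fun t => ∀ q ∈ M, ∀ q' ∈ M, (q ≠ q' → cr (q' - q) (v - par t - q) ≠ 0) := by
  apply Gen.all2 hM (Q := fun q q' t => (q ≠ q' → cr (q' - q) (v - par t - q) ≠ 0))
  intro q _ q' _
  apply imp_countable
  intro hne
  refine quad_countable' (a := (q'.1 - q.1) * (v.2 - q.2) - (q'.2 - q.2) * (v.1 - q.1))
    (b := (q'.2 - q.2)) (c := -(q'.1 - q.1)) ?_ ?_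
  · intro t
    simp only [cr, par, Prod.fst_sub, Prod.snd_sub]
    ring
  · rintro ⟨-, h1, h2⟩
    exact hne (Prod.ext (by linarith) (by linarith))

theorem trig_ne (θ : ℝ) (h1 : Real.cos θ = 0) (h2 : Real.sin θ = 0) : False := by
  have := Real.sin_sq_add_cos_sq θ
  rw [h1, h2] at this
  norm_num at this

theorem gen_L {M : Set P} (hM : #M < 𝔠) (θ : ℝ) :
    Gen fun t => ∀ q ∈ M, L θ (par t) - L θ q ≠ 0 := by
  apply Gen.all1 hM (Q := fun q t => L θ (par t) - L θ q ≠ 0)
  intro q _
  refine quad_countable' (a := - L θ q) (b := Real.cos θ) (c := - Real.sin θ) ?_ ?_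
  · intro t
    simp only [L, par]
    ring
  · rintro ⟨-, h1, h2⟩
    exact trig_ne θ h1 (by linarith)

theorem gen_L' {M : Set P} (hM : #M < 𝔠) (θ : ℝ) (v : P) :
    Gen fun t => ∀ q ∈ M, L θ (v - par t) - L θ q ≠ 0 := by
  apply Gen.all1 hM (Q := fun q t => L θ (v - par t) - L θ q ≠ 0)
  intro q _
  refine quad_countable' (a := L θ v - L θ q) (b := - Real.cos θ) (c := Real.sin θ) ?_ ?_
  · intro t
    simp only [L, par, Prod.fst_sub, Prod.snd_sub]
    ring
  · rintro ⟨-, h1, h2⟩
    exact trig_ne θ (by linarith) h2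

theorem gen_LL (θ : ℝ) (v : P) :
    Gen fun t => L θ (par t) - L θ (v - par t) ≠ 0 := by
  unfold Gen
  have h : {t : ℝ | ¬ (L θ (par t) - L θ (v - par t) ≠ 0)}.Countable := by
    refine quad_countable' (a := - L θ v) (b := 2 * Real.cos θ) (c := - (2 * Real.sin θ)) ?_ ?_
    · intro t
      simp only [L, par, Prod.fst_sub, Prod.snd_sub]
      ring
    · rintro ⟨-, h1, h2⟩
      exact trig_ne θ (by linarith) (by linarith)
  exact lt_of_le_of_lt h.le_aleph0 Cardinal.aleph0_lt_continuum

theorem gen_cross {M : Set P} (hM : #M < 𝔠) (v : P) (hv : ∀ q ∈ M, ∀ q' ∈ M, v ≠ q + q') :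
    Gen fun t => ∀ q ∈ M, ∀ q' ∈ M, cr (par t - q) (v - q - q') ≠ 0 := by
  apply Gen.all2 hM (Q := fun q q' t => cr (par t - q) (v - q - q') ≠ 0)
  intro q hq q' hq'
  refine quad_countable' (a := -(q.1 * (v.2 - q.2 - q'.2)) + q.2 * (v.1 - q.1 - q'.1))
    (b := (v.2 - q.2 - q'.2)) (c := -(v.1 - q.1 - q'.1)) ?_ ?_
  · intro t
    simp only [cr, par, Prod.fst_sub, Prod.snd_sub]
    ring
  · rintro ⟨-, h1, h2⟩
    apply hv q hq q' hq'
    refine Prod.ext ?_ ?_
    · simp only [Prod.fst_add]; linarith
    · simp only [Prod.snd_add]; linarith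

open Classical in
theorem span_step {S : Set (P × (ℝ → Bool))} (hS : Good S) (hc : #S < 𝔠) (θ0 : ℝ) (v : P)
    (b : Bool) :
    ∃ S', S ⊆ S' ∧ Good S' ∧ (S' \ S).Finite ∧ Done S' (Sum.inr (θ0, v, b)) := by
  by_cases hD : Done S (Sum.inr (θ0, v, b))
  · exact ⟨S, subset_rfl, hS, by simp, hD⟩
  have hD' : v ∉ Submodule.span ℚ (cls S θ0 b) := hD
  -- the first point
  have hW0 : #(Submodule.span ℚ (insert v (pts S)) : Submodule ℚ P) < 𝔠 :=
    card_span_lt (small_insert (small_pts hc) v)
  obtain ⟨t0, hp0, hp0c, hp0L⟩ :=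
    ((Gen.notMem (W := (Submodule.span ℚ (insert v (pts S)) : Set P)) hW0 par_inj).and
      ((gen_cr (small_pts hc)).and (gen_L (small_pts hc) θ0))).exists
  set p0 := par t0 with hp0def
  have hspan0 : p0 ∉ Submodule.span ℚ (pts S) := fun h =>
    hp0 (Submodule.span_mono (Set.subset_insert _ _) h)
  obtain ⟨κ0, hG1, hκ0⟩ := insert_one hS hspan0 hp0c b
  have hκ00 : κ0 θ0 = b := hκ0 θ0 fun q hq h => hp0L q hq (by rw [h]; ring)
  set S1 := insert (p0, κ0) S with hS1
  have hc1 : #S1 < 𝔠 := small_insert' hc _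
  have hM1 : pts S1 = insert p0 (pts S) := pts_insert
  have hp0M : p0 ∈ pts S1 := by rw [hM1]; exact Set.mem_insert _ _
  have hMM1 : pts S ⊆ pts S1 := by rw [hM1]; exact Set.subset_insert _ _
  -- v - p0 is not a sum of two points
  have hv : ∀ q ∈ pts S1, ∀ q' ∈ pts S1, v - p0 ≠ q + q' := by
    intro q hq q' hq' h
    rw [hM1] at hq hq'
    have hvW : v ∈ Submodule.span ℚ (insert v (pts S)) := Submodule.subset_span (Set.mem_insert _ _)
    have hqW : ∀ q ∈ pts S, q ∈ Submodule.span ℚ (insert v (pts S)) := fun q hq =>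
      Submodule.subset_span (Set.mem_insert_of_mem _ hq)
    rcases hq with rfl | hq
    · rcases hq' with rfl | hq'
      · apply hp0
        have : p0 = (1/3 : ℚ) • v := by
          have h1 : v = (3 : ℚ) • p0 := by
            rw [sub_eq_iff_eq_add] at h
            rw [h, show (3 : ℚ) = 1 + 1 + 1 by norm_num, add_smul, add_smul, one_smul]
          rw [h1, smul_smul]; norm_num
        rw [this]
        exact Submodule.smul_mem _ _ hvW
      · apply hp0
        have : p0 = (1/2 : ℚ) • (v - q') := by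
          have h1 : v - q' = (2 : ℚ) • p0 := by
            rw [sub_eq_iff_eq_add] at h
            rw [h, show (2 : ℚ) = 1 + 1 by norm_num, add_smul, one_smul]; abel
          rw [h1, smul_smul]; norm_num
        rw [this]
        exact Submodule.smul_mem _ _ (Submodule.sub_mem _ hvW (hqW _ hq'))
    · rcases hq' with rfl | hq'
      · apply hp0
        have : p0 = (1/2 : ℚ) • (v - q) := by
          have h1 : v - q = (2 : ℚ) • p0 := by
            rw [sub_eq_iff_eq_add] at h
            rw [h, show (2 : ℚ) = 1 + 1 by norm_num, add_smul, one_smul]; abel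
          rw [h1, smul_smul]; norm_num
        rw [this]
        exact Submodule.smul_mem _ _ (Submodule.sub_mem _ hvW (hqW _ hq))
      · apply hp0
        have : p0 = v - q - q' := by
          rw [sub_eq_iff_eq_add] at h
          rw [h]; abel
        rw [this]
        exact Submodule.sub_mem _ (Submodule.sub_mem _ hvW (hqW _ hq)) (hqW _ hq')
  set v' := v - p0 with hv'
  -- the second point
  have hW1 : #(Submodule.span ℚ (insert v (pts S1)) : Submodule ℚ P) < 𝔠 :=
    card_span_lt (small_insert (small_pts hc1) v)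
  obtain ⟨t1, h1, h2, h3, h4, h5, h6, h7⟩ :=
    ((Gen.notMem (W := (Submodule.span ℚ (insert v (pts S1)) : Set P)) hW1 par_inj).and
      ((gen_cr (small_pts hc1)).and ((gen_cr' (small_pts hc1) v').and
      ((gen_L (small_pts hc1) θ0).and ((gen_L' (small_pts hc1) θ0 v').and
      ((gen_LL θ0 v').and (gen_cross (small_pts hc1) v' hv))))))).exists
  set p1 := par t1 with hp1def
  set W1 := Submodule.span ℚ (insert v (pts S1)) with hW1def
  have hMW : ∀ q ∈ pts S1, q ∈ W1 := fun q hq =>
    Submodule.subset_span (Set.mem_insert_of_mem _ hq)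
  have hvW : v ∈ W1 := Submodule.subset_span (Set.mem_insert _ _)
  have hv'W : v' ∈ W1 := Submodule.sub_mem _ hvW (hMW _ hp0M)
  have h1' : p1 ∉ W1 := h1
  set p2 := v' - p1 with hp2
  have hp2W : p2 ∉ W1 := by
    intro h
    apply h1'
    have : p1 = v' - p2 := by rw [hp2]; abel
    rw [this]
    exact Submodule.sub_mem _ hv'W h
  -- at most one of the two is forced
  have hforce : ∀ θ, ∀ q ∈ pts S1, ∀ q' ∈ pts S1, L θ q = L θ p1 → L θ q' = L θ p2 → False := by
    intro θ q hq q' hq' e1 e2
    apply h7 q hq q' hq'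
    have e3 : cr (p1 - q) (p2 - q') = 0 := by
      apply cr_eq_zero_of_L (θ := θ)
      · rw [L_sub]; linarith
      · rw [L_sub]; linarith
    rw [← e3]
    simp only [cr, hp2, Prod.fst_sub, Prod.snd_sub]
    ring
  let κ1 : ℝ → Bool := fun θ => if θ = θ0 then b else
    if h : ∃ a ∈ S1, L θ a.1 = L θ p1 then !(h.choose.2 θ) else
    if h : ∃ a ∈ S1, L θ a.1 = L θ p2 then h.choose.2 θ else true
  let κ2 : ℝ → Bool := fun θ => if θ = θ0 then b else !(κ1 θ)
  have hκ10 : κ1 θ0 = b := if_pos rfl
  have hκ20 : κ2 θ0 = b := if_pos rfl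
  have hκ2 : ∀ θ, θ ≠ θ0 → κ2 θ = !(κ1 θ) := fun θ h => if_neg h
  have hG2 : Good (insert (p1, κ1) S1) := by
    apply good_insert hG1
    · intro h; exact h1' (hMW _ h)
    · exact h2
    · intro a ha θ hL
      have hne : θ ≠ θ0 := by
        rintro rfl
        exact h4 a.1 ⟨a, ha, rfl⟩ (by rw [hL]; ring)
      have hex : ∃ a ∈ S1, L θ a.1 = L θ p1 := ⟨a, ha, hL⟩
      have e1 : κ1 θ = !(hex.choose.2 θ) := by
        simp only [κ1]
        rw [if_neg hne, dif_pos hex]
      have e2 := hex.choose_spec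
      have e3 : hex.choose = a := by
        apply hG1.fn _ e2.1 _ ha
        by_contra hne'
        exact h2 _ ⟨_, e2.1, rfl⟩ _ ⟨a, ha, rfl⟩ hne' (cr_zero_of_L3 e2.2 hL)
      rw [e1, e3]
      cases a.2 θ <;> simp
    · intro θ h
      apply h1'
      refine Submodule.span_mono ?_ h
      exact (cls_sub_pts S1 θ _).trans (Set.subset_insert _ _)
  set S2 := insert (p1, κ1) S1 with hS2
  have hM2 : pts S2 = insert p1 (pts S1) := pts_insert
  have hself : ∀ q ∈ pts S1, cr (p1 - q) (p2 - q) ≠ 0 := by
    intro q hq h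
    apply h7 q hq q hq
    rw [← h]
    simp only [cr, hp2, Prod.fst_sub, Prod.snd_sub]
    ring
  have hp1p2 : p1 ≠ p2 := by
    intro h
    apply h1'
    have : p1 = (1/2 : ℚ) • v' := by
      have e1 : v' = (2 : ℚ) • p1 := by
        rw [show (2 : ℚ) = 1 + 1 by norm_num, add_smul, one_smul]
        nth_rewrite 2 [h]
        rw [hp2]; abel
      rw [e1, smul_smul]; norm_num
    rw [this]
    exact Submodule.smul_mem _ _ hv'W
  have hG3 : Good (insert (p2, κ2) S2) := by
    apply good_insert hG2
    · intro h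
      rw [hM2] at h
      rcases h with h | h
      · exact hp1p2 h.symm
      · exact hp2W (hMW _ h)
    · intro q hq q' hq' hne
      rw [hM2] at hq hq'
      rcases hq with rfl | hq
      · rcases hq' with rfl | hq'
        · exact (hne rfl).elim
        · intro h
          apply hself q' hq'
          rw [← neg_eq_zero, ← h]
          simp only [cr, Prod.fst_sub, Prod.snd_sub]
          ring
      · rcases hq' with rfl | hq'
        · exact hself q hq
        · exact h3 q hq q' hq' hne
    · intro a ha θ hL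
      rcases ha with rfl | ha
      · have hne : θ ≠ θ0 := by
          rintro rfl
          simp only at hL
          exact h6 (by rw [hL]; ring)
        rw [hκ2 θ hne]
        show (!(κ1 θ)) ≠ κ1 θ
        cases κ1 θ <;> simp
      · have hne : θ ≠ θ0 := by
          rintro rfl
          exact h5 a.1 ⟨a, ha, rfl⟩ (by rw [hL]; ring)
        have hno : ¬ ∃ a ∈ S1, L θ a.1 = L θ p1 := by
          rintro ⟨a', ha', hL'⟩
          exact hforce θ a'.1 ⟨a', ha', rfl⟩ a.1 ⟨a, ha, rfl⟩ hL' hL
        have hex : ∃ a ∈ S1, L θ a.1 = L θ p2 := ⟨a, ha, hL⟩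
        have e1 : κ1 θ = hex.choose.2 θ := by
          simp only [κ1]
          rw [if_neg hne, dif_neg hno, dif_pos hex]
        have e2 := hex.choose_spec
        have e3 : hex.choose = a := by
          apply hG1.fn _ e2.1 _ ha
          by_contra hne'
          exact h3 _ ⟨_, e2.1, rfl⟩ _ ⟨a, ha, rfl⟩ hne' (cr_zero_of_L3 e2.2 hL)
        rw [hκ2 θ hne, e1, e3]
        cases a.2 θ <;> simp
    · intro θ h
      by_cases hθ : θ = θ0
      · subst hθ
        rw [hκ20, hS2, cls_insert_eq hκ10, Submodule.mem_span_insert] at h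
        obtain ⟨c, z, hz, hcz⟩ := h
        have hzW : z ∈ W1 := by
          refine Submodule.span_mono ?_ hz
          exact (cls_sub_pts S1 θ _).trans (Set.subset_insert _ _)
        have e1 : v' = (c + 1) • p1 + z := by
          rw [add_smul, one_smul]
          have : v' = p2 + p1 := by rw [hp2]; abel
          rw [this, hcz]; abel
        by_cases hc0 : c + 1 = 0
        · rw [hc0, zero_smul, zero_add] at e1
          have e2 : v ∈ Submodule.span ℚ (insert p0 (cls S θ b)) := by
            have e3 : v = p0 + z := by rw [← e1, hv']; abel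
            rw [e3]
            refine Submodule.add_mem _ (Submodule.subset_span (Set.mem_insert _ _)) ?_
            rw [hS1, cls_insert_eq hκ00] at hz
            exact hz
          rw [Submodule.mem_span_insert] at e2
          obtain ⟨d, z', hz', hdz⟩ := e2
          by_cases hd : d = 0
          · rw [hd, zero_smul, zero_add] at hdz
            rw [← hdz] at hz'
            exact hD' hz'
          · apply hp0
            have e4 : p0 = d⁻¹ • (v - z') := by
              rw [hdz, add_sub_cancel_right, smul_smul, inv_mul_cancel₀ hd, one_smul]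
            rw [e4]
            refine Submodule.smul_mem _ _ (Submodule.sub_mem _
              (Submodule.subset_span (Set.mem_insert _ _)) ?_)
            refine Submodule.span_mono ?_ hz'
            exact (cls_sub_pts S θ _).trans (Set.subset_insert _ _)
        · apply h1'
          have e4 : p1 = (c + 1)⁻¹ • (v' - z) := by
            rw [e1, add_sub_cancel_right, smul_smul, inv_mul_cancel₀ hc0, one_smul]
          rw [e4]
          exact Submodule.smul_mem _ _ (Submodule.sub_mem _ hv'W hzW)
      · rw [hS2, cls_insert_ne (by rw [hκ2 θ hθ]; cases κ1 θ <;> simp)] at h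
        apply hp2W
        refine Submodule.span_mono ?_ h
        exact (cls_sub_pts S1 θ _).trans (Set.subset_insert _ _)
  refine ⟨insert (p2, κ2) S2, ?_, hG3, ?_, ?_⟩
  · exact (Set.subset_insert _ _).trans ((Set.subset_insert _ _).trans (Set.subset_insert _ _))
  · refine (Set.toFinite {(p0, κ0), (p1, κ1), (p2, κ2)}).subset ?_
    rintro x ⟨hx | hx | hx | hx, hx'⟩
    · right; right; exact hx
    · right; left; exact hx
    · left; exact hx
    · exact (hx' hx).elim
  · show v ∈ Submodule.span ℚ (cls (insert (p2, κ2) S2) θ0 b)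
    have e1 : v = p0 + (p1 + p2) := by
      rw [hp2, hv']; abel
    have m0 : p0 ∈ cls (insert (p2, κ2) S2) θ0 b := ⟨κ0, by simp [hS2, hS1], hκ00⟩
    have m1 : p1 ∈ cls (insert (p2, κ2) S2) θ0 b := ⟨κ1, by simp [hS2], hκ10⟩
    have m2 : p2 ∈ cls (insert (p2, κ2) S2) θ0 b := ⟨κ2, by simp, hκ20⟩
    rw [e1]
    exact Submodule.add_mem _ (Submodule.subset_span m0) (Submodule.add_mem _
      (Submodule.subset_span m1) (Submodule.subset_span m2))

theorem main_set : ∃ S : Set (P × (ℝ → Bool)), Good S ∧ ∀ t, Done S t := by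
  apply transfinite Good Done good_fin (fun S S' h => good_mono h) good_empty
    (fun S S' t h hd => Done_mono S S' t h hd) card_T
  intro S hS hc t
  rcases t with ⟨a, b, c⟩ | ⟨θ, v, b⟩
  · exact line_step hS hc a b c
  · exact span_step hS hc θ v b

end Pool.Agent.H204Maz
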