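import Mathlib
import Pool.Agent.H204Maz.Span

set_option autoImplicit false

namespace Pool.Agent.H204Maz

/-- the rotation about the origin by the angle `θ` -/
noncomputable def rot (θ : ℝ) (p : P) : P :=
  (Real.cos θ * p.1 - Real.sin θ * p.2, Real.sin θ * p.1 + Real.cos θ * p.2)

theorem rot_neg_rot (θ : ℝ) (p : P) : rot (-θ) (rot θ p) = p := by
  unfold rot
  have h := Real.sin_sq_add_cos_sq θ
  refine Prod.ext ?_ ?_
  · simp only [Real.cos_neg, Real.sin_neg]
    linear_combination p.1 * h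
  · simp only [Real.cos_neg, Real.sin_neg]
    linear_combination p.2 * h

/-- the rotation as a rational linear equivalence -/
noncomputable def rotE (θ : ℝ) : P ≃ₗ[ℚ] P where
  toFun := rot θ
  invFun := rot (-θ)
  left_inv := rot_neg_rot θ
  right_inv p := by
    have := rot_neg_rot (-θ) p
    rwa [neg_neg] at this
  map_add' p q := by
    unfold rot
    refine Prod.ext ?_ ?_ <;> simp only [Prod.fst_add, Prod.snd_add] <;> ring
  map_smul' c p := by
    unfold rot
    refine Prod.ext ?_ ?_ <;>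
      simp only [Prod.smul_fst, Prod.smul_snd, Rat.smul_def, RingHom.id_apply] <;> ring

theorem indep_image (θ : ℝ) {F : Set P} (h : LinearIndepOn ℚ id F) :
    LinearIndepOn ℚ id (rot θ '' F) := by
  have h1 : LinearIndepOn ℚ (rotE θ) F := by
    have := h.map_injOn (rotE θ).toLinearMap ((rotE θ).injective.injOn)
    exact this
  exact h1.id_image

theorem span_image (θ : ℝ) {F : Set P} (h : Submodule.span ℚ F = ⊤) :
    Submodule.span ℚ (rot θ '' F) = ⊤ := by
  have h1 : Submodule.span ℚ (rot θ '' F) = (Submodule.span ℚ F).map (rotE θ).toLinearMap := by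
    rw [Submodule.map_span]; rfl
  rw [h1, h]
  exact LinearMap.range_eq_map (rotE θ).toLinearMap ▸ LinearEquiv.range (rotE θ)

/-- the main theorem -/
theorem main : ∃ M : Set P,
    (∀ a b c : ℝ, ¬ (a = 0 ∧ b = 0) → (M ∩ {p : P | a * p.1 + b * p.2 = c}).ncard = 2) ∧
    ∀ θ : ℝ, ∃ f g : ℝ → ℝ,
      (LinearIndepOn ℚ id {p : P | p.2 = f p.1} ∧ Submodule.span ℚ {p : P | p.2 = f p.1} = ⊤) ∧
      (LinearIndepOn ℚ id {p : P | p.2 = g p.1} ∧ Submodule.span ℚ {p : P | p.2 = g p.1} = ⊤) ∧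
      rot θ '' M = {p : P | p.2 = f p.1} ∪ {p : P | p.2 = g p.1} := by
  obtain ⟨S, hS, hD⟩ := main_set
  -- three points of `S` on a line
  have hthree : ∀ a b c : ℝ, ¬ (a = 0 ∧ b = 0) → ∀ x ∈ S, ∀ y ∈ S, ∀ z ∈ S, x.1 ≠ y.1 →
      a * x.1.1 + b * x.1.2 = c → a * y.1.1 + b * y.1.2 = c → a * z.1.1 + b * z.1.2 = c →
      z.1 = x.1 ∨ z.1 = y.1 := by
    intro a b c hab x hx y hy z hz hxy h1 h2 h3
    by_contra hcon
    push Not at hcon
    apply hS.col x hx y hy z hz hxy (Ne.symm hcon.1) (Ne.symm hcon.2)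
    unfold cr
    simp only [Prod.fst_sub, Prod.snd_sub]
    by_contra hne
    apply hab
    have e1 : a * (y.1.1 - x.1.1) + b * (y.1.2 - x.1.2) = 0 := by linarith
    have e2 : a * (z.1.1 - x.1.1) + b * (z.1.2 - x.1.2) = 0 := by linarith
    constructor
    · have : a * ((y.1.1 - x.1.1) * (z.1.2 - x.1.2) - (y.1.2 - x.1.2) * (z.1.1 - x.1.1)) = 0 := by
        linear_combination (z.1.2 - x.1.2) * e1 - (y.1.2 - x.1.2) * e2
      exact (mul_eq_zero.1 this).resolve_right hne
    · have : b * ((y.1.1 - x.1.1) * (z.1.2 - x.1.2) - (y.1.2 - x.1.2) * (z.1.1 - x.1.1)) = 0 := by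
        linear_combination (y.1.1 - x.1.1) * e2 - (z.1.1 - x.1.1) * e1
      exact (mul_eq_zero.1 this).resolve_right hne
  have htwo : ∀ a b c : ℝ, ¬ (a = 0 ∧ b = 0) → ∃ x ∈ S, ∃ y ∈ S, x.1 ≠ y.1 ∧
      a * x.1.1 + b * x.1.2 = c ∧ a * y.1.1 + b * y.1.2 = c := by
    intro a b c hab
    obtain ⟨p, ⟨x, hx, rfl⟩, q, ⟨y, hy, rfl⟩, h1, h2, h3⟩ := hD (Sum.inl (a, b, c)) hab
    exact ⟨x, hx, y, hy, h1, h2, h3⟩
  refine ⟨pts S, ?_, ?_⟩
  · intro a b c hab
    obtain ⟨x, hx, y, hy, hxy, h1, h2⟩ := htwo a b c hab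
    have : pts S ∩ {p : P | a * p.1 + b * p.2 = c} = {x.1, y.1} := by
      ext p
      constructor
      · rintro ⟨⟨z, hz, rfl⟩, h3⟩
        exact hthree a b c hab x hx y hy z hz hxy h1 h2 h3
      · rintro (rfl | rfl)
        · exact ⟨⟨x, hx, rfl⟩, h1⟩
        · exact ⟨⟨y, hy, rfl⟩, h2⟩
    rw [this, Set.ncard_pair hxy]
  · intro θ
    have hab : ¬ (Real.cos θ = 0 ∧ -Real.sin θ = 0) := by
      rintro ⟨h1, h2⟩
      exact trig_ne θ h1 (by linarith)
    have hL : ∀ p : P, Real.cos θ * p.1 + -Real.sin θ * p.2 = L θ p := by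
      intro p; unfold L; ring
    -- each vertical line has exactly one point of each class
    have hex : ∀ (b : Bool) (x : ℝ), ∃ p, p ∈ cls S θ b ∧ L θ p = x := by
      intro b x
      obtain ⟨y, hy, z, hz, hyz, h1, h2⟩ := htwo _ _ x hab
      rw [hL] at h1 h2
      have h3 := hS.opp y hy z hz hyz θ (by rw [h1, h2])
      by_cases h4 : y.2 θ = b
      · exact ⟨y.1, ⟨y.2, hy, h4⟩, h1⟩
      · refine ⟨z.1, ⟨z.2, hz, ?_⟩, h2⟩
        revert h3 h4
        cases y.2 θ <;> cases z.2 θ <;> cases b <;> simp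
    have huni : ∀ (b : Bool) (p q : P), p ∈ cls S θ b → q ∈ cls S θ b → L θ p = L θ q → p = q := by
      rintro b p q ⟨κ, h1, h2⟩ ⟨κ', h3, h4⟩ h5
      by_contra hne
      exact hS.opp _ h1 _ h3 hne θ h5 (h2.trans h4.symm)
    choose pf hpf1 hpf2 using hex
    have hgraph : ∀ b : Bool, {p : P | p.2 = (fun x => (rot θ (pf b x)).2) p.1} =
        rot θ '' (cls S θ b) := by
      intro b
      ext p
      constructor
      · intro hp
        refine ⟨pf b p.1, hpf1 b p.1, ?_⟩
        refine Prod.ext ?_ ?_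
        · exact hpf2 b p.1
        · exact hp.symm
      · rintro ⟨q, hq, rfl⟩
        show (rot θ q).2 = (rot θ (pf b (rot θ q).1)).2
        have : pf b (rot θ q).1 = q := by
          apply huni b _ _ (hpf1 b _) hq
          rw [hpf2]
          rfl
        rw [this]
    refine ⟨fun x => (rot θ (pf true x)).2, fun x => (rot θ (pf false x)).2, ?_, ?_, ?_⟩
    · rw [hgraph true]
      refine ⟨indep_image θ (hS.ind θ true), span_image θ ?_⟩
      rw [eq_top_iff]
      intro v _
      exact hD (Sum.inr (θ, v, true))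
    · rw [hgraph false]
      refine ⟨indep_image θ (hS.ind θ false), span_image θ ?_⟩
      rw [eq_top_iff]
      intro v _
      exact hD (Sum.inr (θ, v, false))
    · rw [hgraph true, hgraph false, ← Set.image_union]
      congr 1
      ext p
      constructor
      · rintro ⟨a, ha, rfl⟩
        by_cases h : a.2 θ = true
        · left; exact ⟨a.2, ha, h⟩
        · right; exact ⟨a.2, ha, by simpa using h⟩
      · rintro (h | h)
        · exact cls_sub_pts S θ _ h
        · exact cls_sub_pts S θ _ h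

end Pool.Agent.H204Maz
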